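import Pool.Agent.Y150.CD.Stm

/-! Project CD (helper150), job CD-C (helper254): primes of the ring of all algebraic integers,
Frobenius elements and inertia groups. -/

set_option autoImplicit false

namespace Pool.Agent.Y254.CD

open Pool.Agent.Y150.CD

instance algQ : Algebra.IsAlgebraic ℚ Qb := by
  have h := AlgebraicClosure.isAlgebraic ℚ
  have e : (AlgebraicClosure.instAlgebra ℚ : Algebra ℚ Qb) = DivisionRing.toRatAlgebra :=
    Subsingleton.elim _ _
  rw [← e]
  exact h

instance closQ : IsAlgClosure ℚ Qb := ⟨inferInstanceAs (IsAlgClosed (AlgebraicClosure ℚ)), algQ⟩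

theorem act_eq (g : G) (x : O) : act g x = g • x := rfl

instance inst_inv : Algebra.IsInvariant ℤ O G where
  isInvariant x hx := by
    have h : (x : Qb) ∈ Set.range (algebraMap ℚ Qb) := by
      rw [InfiniteGalois.mem_range_algebraMap_iff_fixed]
      intro σ
      exact congrArg (fun y : O => (y : Qb)) (hx σ)
    obtain ⟨k, hk⟩ := h
    have hint : IsIntegral ℤ k := by
      have h1 : IsIntegral ℤ (x : Qb) := x.2
      rw [← hk] at h1
      exact (isIntegral_algebraMap_iff (algebraMap ℚ Qb).injective).mp h1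
    obtain ⟨n, hn⟩ := IsIntegrallyClosed.isIntegral_iff.1 hint
    refine ⟨n, Subtype.ext ?_⟩
    show algebraMap ℤ Qb n = (x : Qb)
    rw [← hk, ← hn]
    exact IsScalarTower.algebraMap_apply ℤ ℚ Qb n

instance inst_comm : SMulCommClass G ℤ O where
  smul_comm σ a x := map_zsmul (DistribSMul.toAddMonoidHom O σ) a x

theorem maxP {p : ℕ} (hp : p.Prime) : (Ideal.span {(p : ℤ)}).IsMaximal :=
  PrincipalIdealRing.isMaximal_of_irreducible (Nat.prime_iff_prime_int.1 hp).irreducible

theorem over_comap {p : ℕ} (hp : p.Prime) {P : Ideal O} (hP : Over p P) :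
    P.comap (algebraMap ℤ O) = Ideal.span {(p : ℤ)} := by
  haveI := hP.1
  haveI : (P.comap (algebraMap ℤ O)).IsPrime := Ideal.comap_isPrime _ _
  refine ((maxP hp).eq_of_le (Ideal.IsPrime.ne_top inferInstance) ?_).symm
  rw [Ideal.span_singleton_le_iff_mem, Ideal.mem_comap]
  have h := hP.2
  simpa using h

theorem exists_over {p : ℕ} (hp : p.Prime) : ∃ P : Ideal O, Over p P := by
  haveI := maxP hp
  haveI : Algebra.IsIntegral ℤ O := integralClosure.AlgebraIsIntegral
  have hker : RingHom.ker (algebraMap ℤ O) ≤ Ideal.span {(p : ℤ)} := by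
    have : RingHom.ker (algebraMap ℤ O) = ⊥ :=
      (RingHom.injective_iff_ker_eq_bot _).1 (FaithfulSMul.algebraMap_injective ℤ O)
    rw [this]
    exact bot_le
  obtain ⟨Q, hQ, hQ2⟩ := Ideal.exists_ideal_over_maximal_of_isIntegral (Ideal.span {(p : ℤ)}) hker
  refine ⟨Q, hQ.isPrime, ?_⟩
  have h : (p : ℤ) ∈ Q.comap (algebraMap ℤ O) := by
    rw [hQ2]; exact Ideal.mem_span_singleton_self _
  rw [Ideal.mem_comap] at h
  simpa using h

theorem exists_frob {p : ℕ} (hp : p.Prime) {P : Ideal O} (hP : Over p P) : ∃ φ, IsFrob p P φ := by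
  letI : TopologicalSpace O := ⊥
  haveI : DiscreteTopology O := ⟨rfl⟩
  haveI : ContinuousSMul G O := by
    rw [continuousSMul_iff_stabilizer_isOpen]
    intro x
    have := stabilizer_isOpen_of_isIntegral (K := ℚ) (L := Qb) (x : Qb)
    convert this using 1
    ext σ
    simp only [SetLike.mem_coe, MulAction.mem_stabilizer_iff]
    constructor
    · intro h
      exact congrArg (fun y : O => (y : Qb)) h
    · intro h
      exact Subtype.ext h
  haveI := hP.1
  haveI hmax : (Ideal.span {(p : ℤ)}).IsMaximal := maxP hp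
  haveI : P.LiesOver (Ideal.span {(p : ℤ)}) := ⟨(over_comap hp hP).symm⟩
  haveI : Algebra.IsIntegral ℤ O := integralClosure.AlgebraIsIntegral
  haveI : P.IsMaximal := by
    refine Ideal.isMaximal_of_isIntegral_of_isMaximal_comap (R := ℤ) P ?_
    rw [over_comap hp hP]
    exact hmax
  letI := Ideal.Quotient.field (Ideal.span {(p : ℤ)})
  letI := Ideal.Quotient.field P
  haveI : Fact p.Prime := ⟨hp⟩
  haveI : NeZero p := ⟨hp.ne_zero⟩
  let e : (ℤ ⧸ Ideal.span {(p : ℤ)}) ≃+* ZMod p := Int.quotientSpanNatEquivZMod p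
  haveI : Finite (ℤ ⧸ Ideal.span {(p : ℤ)}) := Finite.of_equiv _ e.symm.toEquiv
  haveI : Algebra.IsAlgebraic (ℤ ⧸ Ideal.span {(p : ℤ)}) (O ⧸ P) := inferInstance
  haveI : PerfectField (O ⧸ P) :=
    Algebra.IsAlgebraic.perfectField (ℤ ⧸ Ideal.span {(p : ℤ)})
  haveI : CharP (O ⧸ P) p := by
    have h0 : ((p : ℕ) : O ⧸ P) = 0 := by
      have h1 : Ideal.Quotient.mk P (p : O) = 0 := Ideal.Quotient.eq_zero_iff_mem.2 hP.2
      simpa using h1
    exact (CharP.charP_iff_prime_eq_zero hp).2 h0
  haveI : ExpChar (O ⧸ P) p := .prime hp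
  let l : (O ⧸ P) ≃ₐ[ℤ ⧸ Ideal.span {(p : ℤ)}] O ⧸ P :=
    { __ := frobeniusEquiv (O ⧸ P) p,
      commutes' r := by
        have h1 : r ^ p = r := by
          apply e.injective
          rw [map_pow, ZMod.pow_card]
        have h2 : (algebraMap (ℤ ⧸ Ideal.span {(p : ℤ)}) (O ⧸ P) r) ^ p =
            algebraMap (ℤ ⧸ Ideal.span {(p : ℤ)}) (O ⧸ P) r := by
          rw [← map_pow, h1]
        exact h2 }
  obtain ⟨σ, hσ⟩ := Ideal.Quotient.stabilizerHom_surjective_of_profinite (G := G)
    (Ideal.span {(p : ℤ)}) P l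
  refine ⟨σ, fun x => ?_⟩
  rw [← Ideal.Quotient.eq]
  exact DFunLike.congr_fun hσ (Ideal.Quotient.mk P x)

theorem inert_closed (P : Ideal O) : IsClosed {g : G | Inert P g} := by
  letI : TopologicalSpace O := ⊥
  haveI : DiscreteTopology O := ⟨rfl⟩
  haveI : ContinuousSMul G O := by
    rw [continuousSMul_iff_stabilizer_isOpen]
    intro x
    have := stabilizer_isOpen_of_isIntegral (K := ℚ) (L := Qb) (x : Qb)
    convert this using 1
    ext σ
    simp only [SetLike.mem_coe, MulAction.mem_stabilizer_iff]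
    constructor
    · intro h
      exact congrArg (fun y : O => (y : Qb)) h
    · intro h
      exact Subtype.ext h
  have h : {g : G | Inert P g} = ⋂ x : O, {g : G | g • x - x ∈ P} := by
    ext g
    simp only [Set.mem_setOf_eq, Set.mem_iInter]
    rfl
  rw [h]
  refine isClosed_iInter fun x => ?_
  have hc : Continuous fun g : G => g • x := continuous_id.smul continuous_const
  exact (isClosed_discrete {y : O | y - x ∈ P}).preimage hc

theorem frob : S_frob := by
  intro p hp
  refine ⟨exists_over hp, fun P hP => ⟨exists_frob hp hP, ?_, ?_, ?_, inert_closed P⟩⟩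
  · intro g h hg hh x
    have h1 : act (g * h) x - x = (act g (act h x) - act h x) + (act h x - x) := by
      rw [act_eq, act_eq, act_eq, mul_smul]
      abel
    rw [h1]
    exact P.add_mem (hg _) (hh _)
  · intro g hg x
    have h1 : act g⁻¹ x - x = -(act g (act g⁻¹ x) - act g⁻¹ x) := by
      rw [act_eq, act_eq, smul_inv_smul]
      abel
    rw [h1]
    exact P.neg_mem (hg _)
  · intro φ g hφ hg x
    have h1 : act (φ * g * φ⁻¹) x - x = act φ (act g (act φ⁻¹ x) - act φ⁻¹ x) := by
      rw [act_eq, act_eq, act_eq, act_eq, smul_sub, smul_inv_smul, mul_smul, mul_smul]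
    rw [h1]
    have h2 : act g (act φ⁻¹ x) - act φ⁻¹ x ∈ P := hg _
    have h3 := P.add_mem (hφ (act g (act φ⁻¹ x) - act φ⁻¹ x)) (P.pow_mem_of_mem h2 p hp.pos)
    rwa [sub_add_cancel] at h3

end Pool.Agent.Y254.CD
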