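import Pool.Agent.Y150.CD.Stm

/-! Project CD (helper150), job CD-K (helper254): lifting is invariant under morphisms. -/

set_option autoImplicit false

namespace Pool.Agent.Y254.CD

open Pool.Agent.Y150.CD

theorem lift_trivial (V W : Rep) (v : V.V) (hv : ∀ g, V.ρ g v = v) :
    Lift (TwoExt.trivial V W) v := by
  refine ⟨v, rfl, fun _ => 0, ?_, ?_, ?_⟩
  · intro l
    have h : (fun _ : G => l (0 : (TwoExt.trivial V W).X.V)) = fun _ => 0 := by
      funext g; exact map_zero l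
    rw [h]
    exact continuous_const
  · intro g h
    rw [map_zero, add_zero]
  · intro g
    have h1 : (TwoExt.trivial V W).Y.ρ g v = v := hv g
    rw [h1, map_zero]
    exact (sub_self v).symm

theorem lift_of_le {V W : Rep} {v : V.V} {S T : TwoExt V W} (h : S.Le T) (hS : Lift S v) :
    Lift T v := by
  obtain ⟨u, w, hu, hw, huf, hwd, hq⟩ := h
  obtain ⟨y, hy, x, hx, hco, hd⟩ := hS
  refine ⟨w y, by rw [hq, hy], fun g => u (x g), ?_, ?_, ?_⟩
  · intro l
    exact hx (l ∘ₗ u)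
  · intro g h
    show u (x (g * h)) = u (x g) + T.X.ρ g (u (x h))
    rw [hco, map_add, hu]
  · intro g
    show T.d (u (x g)) = T.Y.ρ g (w y) - w y
    rw [← hwd, hd, map_sub, hw]

theorem lift_of_ge {V W : Rep} {v : V.V} (hv : ∀ g, V.ρ g v = v) {S T : TwoExt V W} (h : S.Le T)
    (hT : Lift T v) : Lift S v := by
  obtain ⟨u, w, hu, hw, huf, hwd, hq⟩ := h
  obtain ⟨y', hy', x', hx', hco', hd'⟩ := hT
  obtain ⟨y, hy⟩ := S.surj v
  have h0 : T.q (w y - y') = 0 := by rw [map_sub, hq, hy, hy', sub_self]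
  obtain ⟨x0, hx0⟩ := (T.ex₂ _).1 h0
  obtain ⟨x2, hx2⟩ : ∃ x2 : G → T.X.V, x2 = fun g => x' g + T.X.ρ g x0 - x0 := ⟨_, rfl⟩
  have hx2c : ∀ l : Module.Dual ℚ_[2] T.X.V, Continuous fun g => l (x2 g) := by
    intro l
    have : (fun g => l (x2 g)) = fun g => l (x' g) + l (T.X.ρ g x0) - l x0 := by
      funext g; rw [hx2]; simp only [map_sub, map_add]
    rw [this]
    exact ((hx' l).add (T.X.cont x0 l)).sub continuous_const
  have hx2co : ∀ g h, x2 (g * h) = x2 g + T.X.ρ g (x2 h) := by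
    intro g h
    rw [hx2]
    simp only [hco', map_mul, Module.End.mul_apply, map_add, map_sub]
    abel
  have hx2d : ∀ g, T.d (x2 g) = T.Y.ρ g (w y) - w y := by
    intro g
    have e : w y = y' + T.d x0 := by rw [hx0]; abel
    rw [hx2]
    simp only [map_add, map_sub]
    rw [hd', T.hd, e, map_add]
    abel
  -- a section of `S.d`
  obtain ⟨s0, hs0⟩ := LinearMap.exists_rightInverse_of_surjective S.d.rangeRestrict
    (LinearMap.range_rangeRestrict _)
  obtain ⟨s, hs⟩ := LinearMap.exists_extend s0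
  have hsd : ∀ x, S.d (s (S.d x)) = S.d x := by
    intro x
    have h1 : s (S.d x) = s0 ⟨S.d x, LinearMap.mem_range_self _ _⟩ := by
      rw [← hs]; rfl
    rw [h1]
    have h2 := LinearMap.congr_fun hs0 ⟨S.d x, LinearMap.mem_range_self _ _⟩
    exact congrArg Subtype.val h2
  have hrange : ∀ g, ∃ x, S.d x = S.Y.ρ g y - y := by
    intro g
    apply (S.ex₂ _).1
    rw [map_sub, S.hq, hy, hv, sub_self]
  obtain ⟨x1, hx1⟩ : ∃ x1 : G → S.X.V, x1 = fun g => s (S.Y.ρ g y - y) := ⟨_, rfl⟩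
  have hx1d : ∀ g, S.d (x1 g) = S.Y.ρ g y - y := by
    intro g
    obtain ⟨x, hx⟩ := hrange g
    rw [hx1]
    show S.d (s (S.Y.ρ g y - y)) = _
    rw [← hx, hsd]
  have hx1c : ∀ l : Module.Dual ℚ_[2] S.X.V, Continuous fun g => l (x1 g) := by
    intro l
    have : (fun g => l (x1 g)) = fun g => (l ∘ₗ s) (S.Y.ρ g y) - (l ∘ₗ s) y := by
      funext g; rw [hx1]; simp only [map_sub, LinearMap.comp_apply]
    rw [this]
    exact (S.Y.cont y _).sub continuous_const
  -- the correction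
  obtain ⟨r, hr⟩ := LinearMap.exists_leftInverse_of_injective T.f
    (LinearMap.ker_eq_bot.2 T.inj)
  have hr' : ∀ a, r (T.f a) = a := fun a => LinearMap.congr_fun hr a
  have hk : ∀ g, T.f (r (u (x1 g) - x2 g)) = u (x1 g) - x2 g := by
    intro g
    have h1 : T.d (u (x1 g) - x2 g) = 0 := by
      rw [map_sub, ← hwd, hx1d, hx2d, map_sub, hw, sub_self]
    obtain ⟨a, ha⟩ := (T.ex₁ _).1 h1
    rw [← ha, hr']
  obtain ⟨x, hx⟩ : ∃ x : G → S.X.V, x = fun g => x1 g - S.f (r (u (x1 g) - x2 g)) := ⟨_, rfl⟩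
  have hux : ∀ g, u (x g) = x2 g := by
    intro g
    rw [hx]
    show u (x1 g - S.f (r (u (x1 g) - x2 g))) = _
    rw [map_sub, huf, hk]
    abel
  have hdf : ∀ a, S.d (S.f a) = 0 := fun a => (S.ex₁ _).2 ⟨a, rfl⟩
  have hxd : ∀ g, S.d (x g) = S.Y.ρ g y - y := by
    intro g
    rw [hx]
    show S.d (x1 g - S.f (r (u (x1 g) - x2 g))) = _
    rw [map_sub, hdf, sub_zero, hx1d]
  refine ⟨y, hy, x, ?_, ?_, hxd⟩
  · intro l
    have : (fun g => l (x g)) = fun g => l (x1 g) -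
        ((l ∘ₗ S.f ∘ₗ r ∘ₗ u) (x1 g) - (l ∘ₗ S.f ∘ₗ r) (x2 g)) := by
      funext g; rw [hx]; simp only [map_sub, LinearMap.comp_apply]
    rw [this]
    exact (hx1c l).sub ((hx1c _).sub (hx2c _))
  · intro g h
    have h1 : S.d (x (g * h) - x g - S.X.ρ g (x h)) = 0 := by
      rw [map_sub, map_sub, hxd, hxd, S.hd, hxd, map_mul, Module.End.mul_apply, map_sub]
      abel
    obtain ⟨a, ha⟩ := (S.ex₁ _).1 h1
    have h2 : T.f a = 0 := by
      rw [← huf, ha, map_sub, map_sub, hu, hux, hux, hux, hx2co]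
      abel
    have h3 : a = 0 := T.inj (by rw [h2, map_zero])
    rw [h3, map_zero] at ha
    have h4 := ha.symm
    rw [sub_sub, sub_eq_zero] at h4
    exact h4

theorem inv : S_inv := fun _ _ _ hv =>
  ⟨fun _ _ h => ⟨lift_of_le h, lift_of_ge hv h⟩, lift_trivial _ _ _ hv⟩

end Pool.Agent.Y254.CD
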