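import Pool.Agent.Y150.CD.Stm

/-! Project CD (helper150), job CD-M (helper254): Kummer type representations are mixed. -/

set_option autoImplicit false

namespace Pool.Agent.Y254.CD

open Pool.Agent.Y150.CD

theorem charpoly_scalar_one {V : Type} [AddCommGroup V] [Module ℚ_[2] V] [Module.Finite ℚ_[2] V]
    (h1 : Module.finrank ℚ_[2] V = 1) (f : Module.End ℚ_[2] V) (c : ℚ_[2]) (hf : ∀ v, f v = c • v) :
    LinearMap.charpoly f = Polynomial.X - Polynomial.C c := by
  have b := Module.finBasisOfFinrankEq ℚ_[2] V h1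
  rw [← LinearMap.charpoly_toMatrix f b]
  have h2 : LinearMap.toMatrix b b f = Matrix.diagonal fun _ => c := by
    ext i j
    rw [LinearMap.toMatrix_apply, hf, map_smul, Finsupp.smul_apply, Module.Basis.repr_self,
      Matrix.diagonal_apply, Finsupp.single_apply]
    by_cases hij : i = j
    · rw [if_pos hij.symm, if_pos hij]; simp
    · rw [if_neg (Ne.symm hij), if_neg hij]; simp
  rw [h2, Matrix.charpoly_diagonal]
  simp

theorem pure_tate (hchf : S_chf) (n : ℤ) (V : Rep) (hV : IsTate n V) : Pure (-2 * n) V := by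
  refine ⟨2, two_ne_zero, dvd_rfl, ?_⟩
  intro p hp hp2 P hP
  have hpne : p ≠ 2 := fun h => hp2 (h ▸ dvd_rfl)
  obtain ⟨hin, hfr⟩ := hchf p hp hpne P hP
  have hp0 : (p : ℚ) ≠ 0 := by exact_mod_cast hp.ne_zero
  refine ⟨?_, ?_⟩
  · intro g hg v
    rw [hV.2]
    have h1 : chiQ g = 1 := by
      unfold chiQ
      rw [MonoidHom.comp_apply, hin g hg, map_one]
    rw [h1, one_zpow, Units.val_one, one_smul]
  · intro φ hφ α hα
    have h1 : ((chiQ φ : ℚ_[2]ˣ) : ℚ_[2]) = p := by
      have h2 : ((chiQ φ : ℚ_[2]ˣ) : ℚ_[2]) = (((chi φ : ℤ_[2]ˣ) : ℤ_[2]) : ℚ_[2]) := rfl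
      rw [h2, hfr φ hφ]
      exact PadicInt.coe_natCast p
    have h3 : ((chiQ φ⁻¹ ^ n : ℚ_[2]ˣ) : ℚ_[2]) = (((p : ℚ) ^ (-n) : ℚ) : ℚ_[2]) := by
      rw [map_inv, inv_zpow', Units.val_zpow_eq_zpow_val, h1]
      push_cast
      rfl
    have h4 := charpoly_scalar_one hV.1 (V.ρ φ⁻¹) _ (fun v => hV.2 φ⁻¹ v)
    rw [h4, h3] at hα
    have h5 : α = (((p : ℚ) ^ (-n) : ℚ) : AlgebraicClosure ℚ_[2]) := by
      rw [map_sub, Polynomial.aeval_X, Polynomial.aeval_C, sub_eq_zero] at hα
      rw [hα]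
      exact map_ratCast _ _
    have h6 : α = algebraMap ℚ (AlgebraicClosure ℚ_[2]) ((p : ℚ) ^ (-n)) := by
      rw [h5]
      exact (eq_ratCast (algebraMap ℚ (AlgebraicClosure ℚ_[2])) _).symm
    refine ⟨?_, ?_⟩
    · rw [h6]; exact isAlgebraic_algebraMap _
    · intro z hz
      rw [h6, minpoly.eq_X_sub_C, map_sub, Polynomial.aeval_X, Polynomial.aeval_C, sub_eq_zero] at hz
      rw [hz]
      have h7 : algebraMap ℚ ℂ ((p : ℚ) ^ (-n)) = ((p : ℂ)) ^ (-n) := by
        rw [eq_ratCast]; push_cast; rfl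
      rw [h7, norm_zpow, Complex.norm_natCast, ← zpow_natCast, ← zpow_mul]
      congr 1
      push_cast
      ring

/-- the zero representation -/
noncomputable def zeroRep : Rep where
  V := PUnit
  ρ := 1
  cont := fun v l => by
    have : (fun g : G => l ((1 : G →* Module.End ℚ_[2] PUnit) g v)) = fun _ => 0 := by
      funext g
      have : (1 : G →* Module.End ℚ_[2] PUnit) g v = 0 := Subsingleton.elim _ _
      rw [this, map_zero]
    rw [this]
    exact continuous_const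

theorem isExt_zero (V : Rep) : IsExt zeroRep V V := by
  refine ⟨0, LinearMap.id, ?_, fun _ _ => rfl, ?_, fun v => ⟨v, rfl⟩, ?_⟩
  · intro g v
    rw [LinearMap.zero_apply, LinearMap.zero_apply, map_zero]
  · intro a b _
    exact (Subsingleton.elim (α := PUnit) a b)
  · intro v
    constructor
    · intro h
      refine ⟨(0 : zeroRep.V), ?_⟩
      rw [map_zero]
      exact h.symm
    · rintro ⟨a, rfl⟩
      rfl

theorem mixed_tate (hchf : S_chf) (n : ℤ) (V : Rep) (hV : IsTate n V) : MixedLE (-2 * n) V :=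
  MixedLE.step (-2 * n - 1) (-2 * n) zeroRep V V (by linarith)
    (MixedLE.zero _ _ fun v => Subsingleton.elim (α := PUnit) v 0) (pure_tate hchf n V hV)
    (isExt_zero V)

theorem pur : S_pur := by
  rintro hchf V ⟨n, hV | ⟨A, B, hA, hB, hV⟩⟩
  · exact ⟨_, mixed_tate hchf n V hV⟩
  · exact ⟨-2 * n, MixedLE.step (-2 * (n + 1)) (-2 * n) A V B (by linarith)
      (mixed_tate hchf (n + 1) A hA) (pure_tate hchf n B hB) hV⟩

end Pool.Agent.Y254.CD
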